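import Pool.Agent.R902.FibFinal

/-!
Fibonacci and Lucas sums with central binomial coefficients modulo `p^2`.
-/

namespace Pool.Agent.Results.MP_0a65fc_nt.FibonacciLucasSums

open Finset Pool.Agent.R902

/-- Lucas numbers -/
def L : ℕ → ℤ
  | 0 => 2
  | 1 => 1
  | n + 2 => L (n + 1) + L n

/-- the Legendre symbol `(p/5)` -/
def eps (p : ℕ) : ℤ := jacobiSym (p : ℤ) 5

/-- the Fibonacci quotient `F_{p-eps}/p` -/
def q (p : ℕ) : ℚ := (Nat.fib ((p : ℤ) - eps p).toNat : ℚ) / p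

/-- `a = b` modulo `p^2` in `Z_(p)`: `a - b = p^2 c` with the denominator of `c` prime to `p` -/
def Cong (p : ℕ) (a b : ℚ) : Prop := ∃ c : ℚ, ¬ p ∣ c.den ∧ a - b = (p : ℚ) ^ 2 * c

theorem L_eq (n : ℕ) : L n = FibVal.L n := by
  induction n using Nat.strong_induction_on with
  | _ n ih =>
    rcases n with _ | _ | n
    · rfl
    · rfl
    · rw [L, FibVal.L, ih n (by omega), ih (n + 1) (by omega), add_comm]

theorem eps_eq (p : ℕ) (h5 : p % 5 ≠ 0) : eps p = FibVal.eps p := by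
  rw [eps, FibVal.eps, jacobiSym.mod_left]
  have h : p % 5 = 1 ∨ p % 5 = 2 ∨ p % 5 = 3 ∨ p % 5 = 4 := by omega
  have e : ((p : ℤ) % ((5 : ℕ) : ℤ)) = ((p % 5 : ℕ) : ℤ) := by push_cast; rfl
  rw [e]
  rcases h with h | h | h | h <;> rw [h]
  · norm_num
  · have : jacobiSym ((2 : ℕ) : ℤ) 5 = -1 := by norm_num
    rw [this]; norm_num
  · have : jacobiSym ((3 : ℕ) : ℤ) 5 = -1 := by norm_num
    rw [this]; norm_num
  · have : jacobiSym ((4 : ℕ) : ℤ) 5 = 1 := by norm_num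
    rw [this]; norm_num

theorem result (p : ℕ) (hp : p.Prime) (h2 : p ≠ 2) (h5 : p ≠ 5) :
    Cong p ((p : ℚ) * ∑ k ∈ Ico 1 p, (Nat.fib (2 * k) : ℚ) / ((k : ℚ) ^ 2 * (2 * k).choose k))
      (-(eps p : ℚ) * (3 * q p / 2 + 5 * p * q p ^ 2 / 4)) ∧
    Cong p ((p : ℚ) * ∑ k ∈ Ico 1 p, (L (2 * k) : ℚ) / ((k : ℚ) ^ 2 * (2 * k).choose k))
      (-(5 * q p / 2) - 15 * p * q p ^ 2 / 4) ∧
    Cong p (∑ k ∈ range ((p - 1) / 2), ((2 * k).choose k : ℚ) * Nat.fib (2 * k + 1) /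
        ((2 * k + 1) * 16 ^ k))
      ((-1) ^ ((p + 1) / 2) * eps p * (q p / 2 + 5 * p * q p ^ 2 / 8)) ∧
    Cong p (∑ k ∈ range ((p - 1) / 2), ((2 * k).choose k : ℚ) * L (2 * k + 1) /
        ((2 * k + 1) * 16 ^ k))
      ((-1) ^ ((p + 1) / 2) * (5 * q p / 2 + 5 * p * q p ^ 2 / 8)) := by
  have : Fact p.Prime := ⟨hp⟩
  obtain ⟨n, hn⟩ : ∃ n, p = 2 * n + 1 := by
    rcases hp.eq_two_or_odd' with h | h
    · exact absurd h h2
    · exact h
  have h50 : p % 5 ≠ 0 := by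
    intro h
    have := (Nat.prime_dvd_prime_iff_eq Nat.prime_five hp).1 (Nat.dvd_of_mod_eq_zero h)
    exact h5 this.symm
  have hp0 : (p : ℚ) ≠ 0 := by exact_mod_cast hp.ne_zero
  set N := ((p : ℤ) - eps p).toNat with hNd
  have hN : (FibVal.eps p = 1 ∧ p = N + 1) ∨ (FibVal.eps p = -1 ∧ N = p + 1) := by
    rw [hNd, eps_eq p h50]
    have hp2 := hp.two_le
    by_cases h : p % 5 = 1 ∨ p % 5 = 4
    · left
      have h1 : FibVal.eps p = 1 := if_pos h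
      rw [h1]
      exact ⟨rfl, by omega⟩
    · right
      have h1 : FibVal.eps p = -1 := if_neg h
      rw [h1]
      exact ⟨rfl, by omega⟩
  have hq : (p : ℚ) * q p = FibVal.F N := by
    rw [q, FibVal.F, ← hNd]
    push_cast
    field_simp
  obtain ⟨r1, r2, r3, r4⟩ := FibFinal.final p n N hn h50 hN (q p) hq
  rw [← eps_eq p h50] at r1 r3
  have e1 : (p - 1) / 2 = n := by omega
  have e2 : (p + 1) / 2 = n + 1 := by omega
  rw [e1, e2]
  have f1 : ∀ n, ((FibVal.F n : ℤ) : ℚ) = (Nat.fib n : ℚ) := fun n => by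
    rw [FibVal.F]; push_cast; rfl
  simp only [f1] at r1 r3
  simp only [← L_eq] at r2 r4
  exact ⟨r1.exists_den, r2.exists_den, r3.exists_den, r4.exists_den⟩

end Pool.Agent.Results.MP_0a65fc_nt.FibonacciLucasSums
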